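import Pool.Agent.U201.GC.Mov

set_option autoImplicit false

/-!
# The movable cone conjecture for `(A × F) / G`

Let `Y` be a smooth projective variety with `K_Y ≡ 0`. By Beauville and Bogomolov `Y = (A × F) / G`,
where `A` is an abelian variety, `F` is simply connected with trivial canonical bundle, and `G` is a
finite group which acts freely and diagonally. The theorem of this file says: if `F` satisfies the
movable cone conjecture, then `Y` does. So Q1 is reduced to simply connected varieties.

More precisely, let `A = V / Λ` be an abelian variety and `F` a normal projective variety,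
`ℚ`-factorial with free class group, such that

* there is a rational polyhedral cone `Π_F ⊆ Mov(F)^e` whose translates under the group `PsAut(F)` of
  pseudo-automorphisms cover the effective movable cone `Mov(F)^e`, and
* only finitely many pseudo-automorphisms of `F` act trivially on `Cl(F)`. (They are automorphisms,
  because they fix the class of an ample divisor; so this holds if `F` is smooth and has no
  holomorphic vector fields.)

`PsAut(F)` can be infinite, `F` can have infinitely many small modifications, and its movable cone need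
not be polyhedral. Let `X = (A × F) / G`, where the finite group `G` acts diagonally (with or without
fixed points). Then the effective movable cone `Mov(X)^e` has a rational polyhedral fundamental domain
for the action of `PsAut(X)`, which is equal to `Bir(X)` if `K_X ≡ 0` and `X` is smooth. The
pseudo-automorphisms of `X` which are induced by pairs (affine transformation of `V`,
pseudo-automorphism of `F`) are sufficient. Moreover, `Mov(X)^e` is the convex hull of the rational
classes in the closed movable cone.

The proof. (1) The Siegel property of rational polyhedral cones (`EC.siegel`) and the finiteness of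
the kernel show that the conjugates of `G` which fix a big movable class in `Π_F` form finitely many
types up to scalars of the Cox ring; so the pseudo-automorphisms of `F` which commute with `G` (up to
scalars) move the `G`-invariant big movable classes into finitely many rational polyhedral cones
(`GC.covering`). (2) The degree of a movable sheaf on `X` is a movable class of `F`, and an invariant
movable class of `F` gives a movable sheaf on `X`, by the norms of the sections (`GC.goodQ_mov`). This
describes the movable cone of `X`. (3) This is combined with the reduction theory of hermitian forms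
on `V` (`GC.coreP`).

`MovF`, `IsMovConeVariety` and `movEff` are defined in `Pool.Agent.U201.GC.MovDefs`; `MovableF` in
`Pool.Agent.U201.CM.MovDefs`; `EffF`, `ext`, `Descends` and `IsPull` in `Pool.Agent.U201.EC.Defs`; `rv`
in `Pool.Agent.X324.CF.Poly`; `Cl`, `Induces`, `Scal`, `Grp`, `base`, `Inv`, `IsQuotient`, `Sheaf`,
`Sheaf.IsMovable`, `N1`, `val`, `integral`, `effective`, `movable`, `coneHull`, `movCone` and `effCone`
in `Pool.Agent.X324.CF.Defs`; `IsTorusQuotient` in `Pool.Agent.W594.SYZ.Defs2`; `IsPositiveForm` in
`Pool.Agent.W594.SYZ.TQDefs`; `LinGrp`, `Preserves` and `IsFundDomain` in `Pool.Agent.Y167.Stm`;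
`cone` in `Pool.Agent.Y167.ConeDef`.
-/

namespace Pool.Agent.Results.MP_e39d36_ag.BirationalDescent

open Pool.Agent.W594.SYZ2 Pool.Agent.X324.CF Pool.Agent.U201.EC Pool.Agent.U201.GC
open Pool.Agent.Y167 (cone)
open Pool.Agent.Y167.CC (LinGrp Preserves IsFundDomain)

/-- The space `N^1(X)` of numerical classes with real coefficients. -/
abbrev NX {V R : Type*} [NormedAddCommGroup V] [NormedSpace ℂ V] [CommRing R] [Algebra ℂ R] {ρ : ℕ}
    (𝒜 : Cl ρ → Submodule ℂ R) (Γ : Grp V R) : Type _ := N1 𝒜 Γ (LinearMap.id : V →ₗ[ℂ] V)

/-- `𝒢` is a group of linear automorphisms of `N^1(X)` which preserves the integral classes (the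
classes of Weil divisors) and the effective movable cone, and which contains the pullbacks by all
pseudo-automorphisms of `X = (V × F) / Γ` which are given by pairs `(f, φ)`, where `f` is an affine
transformation of `V` and `φ` a pseudo-automorphism of `F` (an automorphism of the Cox ring which
permutes the homogeneous pieces). The image of `PsAut(X)` has these properties. -/
structure IsPsAutX {V R : Type*} [NormedAddCommGroup V] [NormedSpace ℂ V] [CommRing R] [Algebra ℂ R]
    {ρ : ℕ} {𝒜 : Cl ρ → Submodule ℂ R} {Γ : Grp V R} (𝒢 : LinGrp (NX 𝒜 Γ)) : Prop where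
  int : Preserves 𝒢 (integral 𝒜 Γ LinearMap.id)
  mov_eff : Preserves 𝒢 (movEff 𝒜 Γ LinearMap.id)
  pull : ∀ (f : V ≃ᵃ[ℂ] V) (φ : R ≃ₐ[ℂ] R) (σ : Cl ρ ≃+ Cl ρ), Induces 𝒜 φ σ →
    Descends 𝒜 Γ f φ → ∀ g, IsPull f σ g → g ∈ 𝒢

/-- Let `F` be a variety with Cox ring `R = ⨁ 𝒜 β` and ample class `u` which satisfies the movable
cone conjecture and has only finitely many pseudo-automorphisms acting trivially on `Cl(F)`, and let
`X = (V × F) / Γ` be a projective quotient of `A × F` by a finite group acting diagonally. There is a
finite set `S` of integral classes such that the cone spanned by `S` is contained in the effective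
movable cone of `X` and is a fundamental domain for the action of `𝒢` on this cone. Moreover, the
effective movable cone is the convex hull of the rational classes in the closed movable cone. -/
theorem result {V R : Type*} [NormedAddCommGroup V] [NormedSpace ℂ V] [FiniteDimensional ℂ V]
    [CommRing R] [IsDomain R] [Algebra ℂ R] {ρ : ℕ}
    (𝒜 : Cl ρ → Submodule ℂ R) [GradedAlgebra 𝒜] (u : Cl ρ) (hF : IsMovConeVariety 𝒜 u)
    (Γ : Grp V R) (hX : IsQuotient 𝒜 u Γ)
    (hproj : ∃ (L : Sheaf 𝒜 Γ) (H : V → V → ℂ), L.IsChern H ∧ IsPositiveForm H)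
    (𝒢 : LinGrp (NX 𝒜 Γ)) (h𝒢 : IsPsAutX 𝒢) :
    (∃ S : Finset (NX 𝒜 Γ), ↑S ⊆ integral 𝒜 Γ LinearMap.id ∧ cone S ⊆ movEff 𝒜 Γ LinearMap.id ∧
      IsFundDomain 𝒢 (movEff 𝒜 Γ LinearMap.id) (cone S)) ∧
    movEff 𝒜 Γ LinearMap.id = convexHull ℝ (movCone 𝒜 Γ LinearMap.id ∩
      {a | ∃ m : ℕ, 0 < m ∧ (m : ℝ) • a ∈ integral 𝒜 Γ LinearMap.id}) := by
  obtain ⟨H₀, Rl⟩ := rel_id hX hproj
  refine ⟨core_mov hF hX Rl 𝒢 h𝒢.int h𝒢.mov_eff
    fun f φ σ h1 h2 _ g hg => h𝒢.pull f φ σ h1 h2 g hg, ?_⟩
  have h1 := cp_eqP hF.sys hX (goodQ_mov hF hX) Rl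
  have h2 := closure_eqP hF.sys hX (goodQ_mov hF hX) Rl
  have h3 : movEff 𝒜 Γ (LinearMap.id : V →ₗ[ℂ] V)
      = closure (coneHull (movable 𝒜 Γ LinearMap.id)) ∩ effCone 𝒜 Γ LinearMap.id := rfl
  have h4 : movCone 𝒜 Γ (LinearMap.id : V →ₗ[ℂ] V)
      = closure (coneHull (movable 𝒜 Γ LinearMap.id)) := rfl
  rw [h3, h1, h4, h2, cp_eq_convexHull KP_zero fun t ht a ha => KP_smul ht ha]
  rfl

end Pool.Agent.Results.MP_e39d36_ag.BirationalDescent
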