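import Pool.Agent.U201.PR.MovFin

set_option autoImplicit false

/-!
# The movable cone conjecture for products

Let `Y` be a smooth projective variety with `K_Y ≡ 0`. By Beauville and Bogomolov
`Y = (A × F₁ × … × F_k) / G`, where `A` is an abelian variety, the `F_i` are irreducible holomorphic
symplectic manifolds and Calabi–Yau manifolds in the strict sense, and `G` is a finite group. The
movable cone conjecture for `(A × F) / G`, `F = F₁ × … × F_k`, follows from the movable cone conjecture
for `F` (`MP_e39d36_ag.BirationalDescent`). The theorem of this file reduces it further to the `F_i`: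
the class of the varieties which satisfy the hypothesis of this result is closed under products.

Let `𝒞` be a set of normal projective varieties `F_i`, `ℚ`-factorial with free class group, such that

* there is a rational polyhedral cone in the effective movable cone `Mov(F_i)^e` whose translates under
  the group of pseudo-automorphisms cover `Mov(F_i)^e`, and
* only finitely many pseudo-automorphisms of `F_i` act trivially on `Cl(F_i)`.

Then every product of finitely many varieties in `𝒞` has the same properties. Moreover, a class of a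
product is movable if and only if its restrictions to the factors are movable; the closed movable cone
and the effective cone of a product are the products of the cones of the factors; and every
pseudo-automorphism which acts trivially on the class group is (on the Cox ring) a product.

The varieties are given by their Cox rings, which are factorial. By the Künneth formula the Cox ring of
a product is the tensor product of the Cox rings. The proof: a divisor in the Cox ring of a section
which comes from the first factor is homogeneous, and its degree and the degree of its cofactor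
restrict to effective classes `γ`, `- γ` of the second factor, and so to zero; hence it comes from the
first factor (`PR.dvd_split₁`). So the fixed divisors of `O(β₁, 0)` are those of `O(β₁)`. Conversely a
fixed divisor of `O(β₁)` gives a fixed divisor of `O(β₁, β₂)`.
-/

namespace Pool.Agent.Results.MP_e39d36_ag.MovableProducts

open Pool.Agent.X324.CF Pool.Agent.U201.EC Pool.Agent.U201.CM Pool.Agent.U201.GC
  Pool.Agent.U201.PR

theorem result :
    (∀ 𝒞 : Variety → Prop, (∀ F, 𝒞 F → MovGood F) → ∀ F, FactorialProductOf 𝒞 F → MovGood F) ∧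
    ∀ (F₁ F₂ : Variety) (R : Type) [CommRing R] [Algebra ℂ R] [IsDomain R]
      (𝒜 : Cl (F₁.ρ + F₂.ρ) → Submodule ℂ R) [GradedAlgebra 𝒜] (ι₁ : F₁.R →ₐ[ℂ] R)
      (ι₂ : F₂.R →ₐ[ℂ] R), UniqueFactorizationMonoid R → MovGood F₁ → MovGood F₂ →
      IsProduct F₁.𝒜 F₂.𝒜 𝒜 ι₁ ι₂ →
      (∀ β, MovableF 𝒜 β ↔ MovableF F₁.𝒜 (pr1 β) ∧ MovableF F₂.𝒜 (pr2 β)) ∧
      (∀ b, b ∈ MovF 𝒜 ↔ pr1 b ∈ MovF F₁.𝒜 ∧ pr2 b ∈ MovF F₂.𝒜) ∧
      (∀ b, b ∈ EffF 𝒜 ↔ pr1 b ∈ EffF F₁.𝒜 ∧ pr2 b ∈ EffF F₂.𝒜) ∧
      (∀ φ : R ≃ₐ[ℂ] R, Induces 𝒜 φ (AddEquiv.refl _) →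
        ∃ (φ₁ : F₁.R ≃ₐ[ℂ] F₁.R) (φ₂ : F₂.R ≃ₐ[ℂ] F₂.R), Induces F₁.𝒜 φ₁ (AddEquiv.refl _) ∧
          Induces F₂.𝒜 φ₂ (AddEquiv.refl _) ∧ (∀ a, φ (ι₁ a) = ι₁ (φ₁ a)) ∧
            ∀ a, φ (ι₂ a) = ι₂ (φ₂ a)) :=
  ⟨fun _ h𝒞 _ hF => movGood_prod h𝒞 hF,
    fun _ _ _ _ _ _ _ _ _ _ hR h1 h2 P => mov_cones_prod hR h1 h2 P⟩

end Pool.Agent.Results.MP_e39d36_ag.MovableProducts
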