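import Pool.Agent.U189.MG.AbsG
import Pool.Agent.U189.MG.Frm

/-!
# The movable cone of the toroidal models of covers of products of projective spaces

**The varieties.** Let `F i` be a form of degree `d i` in `n i + 1` variables whose zero set in the
projective `n i`-space is a smooth hypersurface, and let `H i` be the cyclic hypersurface
`w ^ (d i) = F i` in the projective `(n i + 1)`-space. Let `Y` be a quotient `(H 1 × ... × H r) / G`, where
`G` is any group of diagonal automorphisms `w i ↦ ζ i * w i`, `ζ i ^ (d i) = 1`: an abelian cover of the
product of the projective `n i`-spaces which is branched along the hypersurfaces `F i = 0` of the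
factors. Its function field `K` is generated by the affine coordinates `x i j / x i 0` and by roots `z j`,
`z j ^ (m j) = ∏ i, (F i (x i) / x i 0 ^ (d i)) ^ (a j i)`, where `m j` divides `a j i * d i`. `X` is the
toroidal modification of `Y` which is given by `fan`, and `D 1, ..., D p` are toroidal `ℚ`-Cartier divisors
on `X`; the coefficients of their pullbacks at the prime divisors `P` over `X` are the `δ i P`. See
`Pool.Agent.Results.MP_89a3f8_ag.TerminationOfFlips`, whose definitions (`Smooth`, `Admissible`,
`InCone`, `IsFan`, `affine`, `minimalOrder`, `multiplicities`, `coefficient`, `IsSection`,
`BasePointFree`, `Semiample`, `IsSmallModification`) are used here. If all `n i ≥ 3` and if the `D i`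
generate the toroidal divisors of a `ℚ`-factorial `X` then all divisors on `X` are rational combinations of
the `D i` up to `ℚ`-linear equivalence (Lefschetz; this remark is not used and not proved here). There is
no condition on the dimensions and the degrees.
`X` can be any toroidal modification which is a projective (or only a complete) variety; no combination
of the `D i` is assumed to be ample, and the classes of the `D i` need not span `N¹(X)`.

**Classes which are free along a set of prime divisors.** Let `PP` be any set of prime divisors over `X`
(divisorial valuations of `K`; they are exceptional over `X` or not). An integral combination is free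
along `PP` if it has a nonzero section and for every `P` in `PP` a section which does not vanish at `P`
(`IsFreeAlong`). A real combination `w` is a limit of such classes (`IsFreeAlongUpTo`) if there is a
divisor `A` on some model of `X`, generated by finitely many functions, such that for all `M ≥ 1`
multiples of `w + A / M` have, up to a change of the coefficients by at most `1 / M`, for every `P` in
`PP` a section which does not vanish at `P`. Here `A` need not be a combination of the `D i`. Special
cases (for a projective `X`; take `A` ample such that also the `A ± D i` are ample):
* `PP` all prime divisors over `X`: every nef class has the property (`w + A / M` is ample), and the free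
integral classes are those without base points;
* `PP` all prime divisors on `X`: every class in the closure of the cone of movable divisor classes in
`N¹(X)` has the property, and the free integral classes are those without fixed divisor;
* `PP` all prime divisors over `X` with a centre of codimension at most `q` on `X`: closures of the cones
of divisors whose base loci have codimension more than `q`;
* `PP` empty: the pseudo-effective classes.

**The theorem.** There are finitely many rational polyhedral cones, such that for EVERY set `PP` the
real combinations `w` which are limits of classes free along `PP` form one of these cones; and it is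
spanned by finitely many integral combinations which are free along `PP`.

**The movable cone.** For the prime divisors on `X` this says: the intersection of the closed cone
`Mov(X) ⊂ N¹(X)` with the space spanned by the `D i` is a rational polyhedral cone, which is spanned by
movable integral divisors; in particular all its elements are effective. If `K_X` is numerically
trivial and the `D i` span `N¹(X)` (for instance all `n i ≥ 3`), then the group by which `Bir(X)` acts
on `N¹(X)` preserves this pointed full-dimensional cone, so it is finite and has a rational polyhedral
fundamental domain: this is the movable cone conjecture of Question Q1 (the passage from polyhedral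
cones to fundamental domains is formalized in `MP_ad47bb_ag.MovableCone`).

**Relation to the other results.** In `MP_ad47bb_ag.MovableCone` (same `X`) the movable combinations are
the limits of mobile combinations of the `D i`; this is the geometric notion only if some combination
of the `D i` is ample. Here the closure is taken in `N¹(X)` (with arbitrary `A`), no ample combination is
needed, and the sets `PP` of prime divisors are arbitrary. `MP_9a2ae6_ag.NormalCrossingRealNef` is the same
statement for another class of varieties `Y` (covers of one projective space which are branched along
several hypersurfaces with normal crossings). The nef cone (`PP` all prime divisors) of the present `X` is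
in `MP_9f99c5_ag.ToroidalModels`.

**Proof.** The Cox ring of the `D i` together with the sum `H` of the hyperplane classes is finitely
generated (`Q57.CX.main_cox`), and finite sets of functions are bounded by a multiple of `H`
(`Pool/Agent/U189/MG/AbsG.lean`). The generators which vanish at `P` can occur in the limit only with the
coefficient zero (`Pool/Agent/U189/MG/Fre.lean`, `Frm.lean`).
-/

set_option autoImplicit false

open FF MvPolynomial Pool.Agent.W602.GT

namespace Pool.Agent.Results.MP_e39d36_ag.ProductCoverMovable

open Pool.Agent.Results.MP_89a3f8_ag.TerminationOfFlips
open Pool.Agent.U660.MD (coneOf)
open Pool.Agent.U189.MG.G (IsFreeAlong IsFreeAlongUpTo free_cones)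

/-- **Cones of classes which are free along sets of prime divisors.** Let `K` be the function
field of an abelian cover `Y` of the product of the projective `n i`-spaces which is branched along smooth
hypersurfaces `F i = 0` of the factors, `X` the toroidal modification of `Y` which is given by `fan`, and
`D i`, `i < p`, toroidal `ℚ`-Cartier divisors on `X` with the degrees `β i t` and the coefficients `c i`. There are finitely
many finite families `h l` of integral combinations such that for every set `PP` of prime divisors over
`X` there is `l` such that the `h l b` are free along `PP`, and span the cone of all real combinations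
which are limits of classes free along `PP`. -/
theorem result (r N R p : ℕ) (n d : Fin r → ℕ) (hr : 1 ≤ r) (hn : ∀ i, 1 ≤ n i)
    (hd : ∀ i, 1 ≤ d i) (hN : N = ∑ i, n i)
    (F : ∀ i, MvPolynomial (Fin (n i + 1)) ℂ) (hF : ∀ i, (F i).IsHomogeneous (d i))
    (hs : ∀ i, Smooth (F i)) (m : Fin R → ℕ) (hm : ∀ j, 1 ≤ m j) (a : Fin R → Fin r → ℕ)
    (hdiv : ∀ j i, m j ∣ a j i * d i)
    (K : Type) [Field K] [Algebra ℂ K] (x : ∀ i, Fin (n i + 1) → K) (hx0 : ∀ i, x i 0 ≠ 0)
    (hbas : IsTranscendenceBasis ℂ (affine x)) (z : Fin R → K)
    (hz : ∀ j, z j ^ m j = ∏ i, (aeval (x i) (F i) / x i 0 ^ d i) ^ a j i)
    (hgen : IntermediateField.adjoin ℂ (Set.range (affine x) ∪ Set.range z) = ⊤)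
    (fan : Finset (Finset (Fin r → ℕ))) (hfan : IsFan m a fan)
    (c : Fin p → (Fin r → ℕ) → ℚ) (hc0 : ∀ i, c i 0 = 0) (β : Fin p → Fin r → ℤ)
    (u : Finset (Fin r → ℕ) → Fin p → Fin r → ℚ)
    (hlin : ∀ σ ∈ fan, ∀ i v, Admissible m a v → InCone σ v → - c i v = ∑ k, u σ i k * v k)
    (δ : Fin p → Place ℂ K → ℚ) (hδ : ∀ i P, δ i P = coefficient F d x (c i) (β i) P) :
    ∃ (L : ℕ) (B : Fin L → ℕ) (h : ∀ l, Fin (B l) → Fin p → ℤ), ∀ PP : Set (Place ℂ K), ∃ l,
      (∀ b, IsFreeAlong N δ PP (h l b)) ∧ {w | IsFreeAlongUpTo N δ PP w} = coneOf (h l) :=
  free_cones (fun S => Pool.Agent.U189.MG.PB.absorb hx0 hbas S)
    (Pool.Agent.U189.MG.PB.cox_ext r N R p n d hr hn hd hN F hF hs m hm a hdiv K x hx0 hbas z hz hgen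
      fan hfan c hc0 β u hlin δ hδ)

end Pool.Agent.Results.MP_e39d36_ag.ProductCoverMovable
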